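import Mathlib
import Pool.Agent.Q184.Edge.Defs
import Pool.Agent.Q184.Edge.Spec
import Pool.Agent.Q184.Edge.Main

/-!
# Free groups of piecewise isometries on the lower edge of the legal region
-/

open Set Q184.Edge

namespace Pool.Agent.Results.MP_af08fa_gt.LowerEdge

/-- The three properties at the point `(α, β_α)` of the lower edge: `φ` and `ψ` are bijections of
the barrel, they are independent, and every non-identity element of the group generated by them has
only finitely many fixed points. -/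
def Works (α : ℝ) : Prop :=
  BijOn (phi α (betaLow α)) (barrel α) (barrel α) ∧
  BijOn (psi α (betaLow α)) (barrel α) (barrel α) ∧
  ∃ f : Fin 2 → Equiv.Perm (barrel α),
    (∀ x, (f 0 x : ℂ) = phi α (betaLow α) x) ∧ (∀ x, (f 1 x : ℂ) = psi α (betaLow α) x) ∧
    (∀ w : FreeGroup (Fin 2), w ≠ 1 → FreeGroup.lift f w ≠ 1) ∧
    ∀ g ∈ Subgroup.closure (range f), g ≠ 1 → {x | g x = x}.Finite

/-- There is `α` in `(0, √(2√3 - 3))` with the three properties; in fact all but countably many
`α` in this interval have them. -/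
theorem result :
    (∃ α : ℝ, 0 < α ∧ α < √(2 * √3 - 3) ∧ Works α) ∧
    {α : ℝ | 0 < α ∧ α < √(2 * √3 - 3) ∧ ¬ Works α}.Countable := by
  have hbad : {t : ℝ | ¬ Q184.Piece.Good Mt (t : ℂ)}.Countable :=
    (Q184.Piece.bad_countable Mt prod_not_scal).preimage Complex.ofReal_injective
  have hcount : {α : ℝ | 0 < α ∧ α < √(2 * √3 - 3) ∧ ¬ Works α}.Countable := by
    refine (hbad.image (fun t => 2 * t / (1 + t ^ 2))).mono ?_
    rintro α ⟨h0, h1, h2⟩
    refine ⟨tpar α, ?_, ?_⟩
    · intro hgood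
      exact h2 ⟨phi_bijOn h0 h1, psi_bijOn h0 h1, main h0 h1 hgood⟩
    · have h3 := (alpha_tpar h0 (param h0 h1).2.2.1).1
      have h4 : 1 + tpar α ^ 2 ≠ 0 := by positivity
      change 2 * tpar α / (1 + tpar α ^ 2) = α
      rw [h3]
      exact mul_div_cancel_right₀ _ h4
  refine ⟨?_, hcount⟩
  by_contra hcon
  push Not at hcon
  have h3 : √3 ^ 2 = 3 := Real.sq_sqrt (by norm_num)
  have h5 : 0 < √(2 * √3 - 3) := Real.sqrt_pos.mpr (by nlinarith [Real.sqrt_nonneg 3])
  have h6 : (Ioo 0 √(2 * √3 - 3)).Countable := by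
    refine hcount.mono ?_
    intro α hα
    exact ⟨hα.1, hα.2, hcon α hα.1 hα.2⟩
  have h7 := h6.le_aleph0
  rw [Cardinal.mk_Ioo_real h5] at h7
  exact absurd h7 (not_le.mpr Cardinal.aleph0_lt_continuum)

end Pool.Agent.Results.MP_af08fa_gt.LowerEdge
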